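import Pool.Agent.R464.MG.Iface

/-!
MP_61ed4e_co, part R1: sequences of rationals and their diagrams.
-/

namespace R961.MG

open R464.MG

/-- `x` can be appended to an `r`-chain of length `m` inside `l`. -/
def Lab (r : ℚ → ℚ → Prop) (l : List ℚ) (x : ℚ) (m : ℕ) : Prop :=
  ∃ s : List ℚ, s.Sublist l ∧ s.length = m ∧ (s ++ [x]).Pairwise r

section lab

variable {r : ℚ → ℚ → Prop}

theorem Lab.zero (l : List ℚ) (x : ℚ) : Lab r l x 0 :=
  ⟨[], List.nil_sublist _, rfl, by simp⟩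

theorem Lab.mono {l : List ℚ} {x : ℚ} {m m' : ℕ} (h : Lab r l x m) (hm : m' ≤ m) :
    Lab r l x m' := by
  obtain ⟨s, hs, hl, hp⟩ := h
  refine ⟨s.drop (m - m'), (List.drop_sublist _ _).trans hs, ?_, ?_⟩
  · rw [List.length_drop, hl]; omega
  · exact hp.sublist ((List.drop_sublist _ _).append_right _)

theorem Lab.bound {l : List ℚ} {x : ℚ} {m : ℕ} (h : Lab r l x m) : m ≤ l.length := by
  obtain ⟨s, hs, hl, -⟩ := h
  rw [← hl]; exact hs.length_le

theorem sub_snoc {s L : List ℚ} {x : ℚ} (h : (s ++ [x]).Sublist L) :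
    ∃ l, (l ++ [x]) <+: L ∧ s.Sublist l := by
  rw [List.append_sublist_iff] at h
  obtain ⟨r₁, r₂, rfl, h1, h2⟩ := h
  have hx : x ∈ r₂ := List.singleton_sublist.1 h2
  obtain ⟨p, q, rfl⟩ := List.append_of_mem hx
  exact ⟨r₁ ++ p, ⟨q, by simp⟩, h1.trans (List.sublist_append_left _ _)⟩

theorem Lab.step (htr : ∀ a b c, r a b → r b c → r a c) {lx l : List ℚ} {x y : ℚ} {m : ℕ}
    (h : Lab r lx x m) (hp : (lx ++ [x]) <+: l) (hr : r x y) : Lab r l y (m + 1) := by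
  obtain ⟨s, hs, hl, hpw⟩ := h
  refine ⟨s ++ [x], (hs.append_right _).trans hp.sublist, by simp [hl], ?_⟩
  rw [List.pairwise_append]
  refine ⟨hpw, by simp, ?_⟩
  intro a ha b hb
  rw [List.mem_singleton] at hb
  subst hb
  rw [List.mem_append] at ha
  rcases ha with ha | ha
  · rw [List.pairwise_append] at hpw
    exact htr _ _ _ (hpw.2.2 a ha x (by simp)) hr
  · rw [List.mem_singleton] at ha
    subst ha; exact hr

theorem Lab.pred {l : List ℚ} {y : ℚ} {m : ℕ} (h : Lab r l y (m + 1)) :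
    ∃ x lx, (lx ++ [x]) <+: l ∧ Lab r lx x m ∧ r x y := by
  obtain ⟨s, hs, hl, hpw⟩ := h
  rcases List.eq_nil_or_concat' s with rfl | ⟨s', x, rfl⟩
  · simp at hl
  · obtain ⟨lx, h1, h2⟩ := sub_snoc hs
    rw [List.pairwise_append] at hpw
    refine ⟨x, lx, h1, ⟨s', h2, by simpa using hl, hpw.1⟩, hpw.2.2 x (by simp) y (by simp)⟩

theorem Lab.max (l : List ℚ) (x : ℚ) : ∃ i, ∀ i', Lab r l x i' ↔ i' ≤ i := by
  classical
  have hb : ∃ i, Lab r l x i ∧ ¬ Lab r l x (i + 1) := by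
    by_contra hcon
    push Not at hcon
    have : ∀ i, Lab r l x i := by
      intro i
      induction i with
      | zero => exact Lab.zero _ _
      | succ i ih => exact hcon i ih
    have := (this (l.length + 1)).bound
    omega
  obtain ⟨i, h1, h2⟩ := hb
  refine ⟨i, fun i' => ⟨fun h => ?_, fun h => h1.mono h⟩⟩
  by_contra hc
  exact h2 (h.mono (by omega))

end lab

theorem H_iff (L : List ℚ) (i j : ℕ) :
    H L i j ↔ ∃ l x, (l ++ [x]) <+: L ∧ Lab (· < ·) l x i ∧ Lab (· > ·) l x j := Iff.rfl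

theorem H_snoc (L : List ℚ) (t : ℚ) (i j : ℕ) :
    H (L ++ [t]) i j ↔ H L i j ∨ (Lab (· < ·) L t i ∧ Lab (· > ·) L t j) := by
  simp only [H_iff]
  constructor
  · rintro ⟨l, x, hp, h1, h2⟩
    rw [List.prefix_concat_iff] at hp
    rcases hp with hp | hp
    · have hp' := List.append_inj' hp rfl
      obtain ⟨rfl, hx⟩ := hp'
      rw [List.singleton_inj] at hx
      subst hx
      exact Or.inr ⟨h1, h2⟩
    · exact Or.inl ⟨l, x, hp, h1, h2⟩
  · rintro (⟨l, x, hp, h1, h2⟩ | ⟨h1, h2⟩)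
    · exact ⟨l, x, hp.trans (List.prefix_append _ _), h1, h2⟩
    · exact ⟨L, t, List.prefix_rfl, h1, h2⟩

theorem mem_of_prefix {l L : List ℚ} {x : ℚ} (h : (l ++ [x]) <+: L) : x ∈ L :=
  h.subset (by simp)

/-- Two positions of a list are comparable. -/
theorem pos_cases {lx ly L : List ℚ} {x y : ℚ} (hx : (lx ++ [x]) <+: L) (hy : (ly ++ [y]) <+: L) :
    (lx = ly ∧ x = y) ∨ (lx ++ [x]) <+: ly ∨ (ly ++ [y]) <+: lx := by
  rcases List.prefix_or_prefix_of_prefix hx hy with h | h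
  · rw [List.prefix_concat_iff] at h
    rcases h with h | h
    · have h' := List.append_inj' h rfl
      exact Or.inl ⟨h'.1, List.singleton_inj.1 h'.2⟩
    · exact Or.inr (Or.inl h)
  · rw [List.prefix_concat_iff] at h
    rcases h with h | h
    · have h' := List.append_inj' h rfl
      exact Or.inl ⟨h'.1.symm, (List.singleton_inj.1 h'.2).symm⟩
    · exact Or.inr (Or.inr h)

theorem lt_tr : ∀ a b c : ℚ, a < b → b < c → a < c := fun _ _ _ => lt_trans
theorem gt_tr : ∀ a b c : ℚ, a > b → b > c → a > c := fun _ _ _ h1 h2 => lt_trans h2 h1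

/-- An element `x < y`, with an increasing label `≥ i` and `y` with a decreasing label `≥ j`. -/
theorem cross {L lx ly : List ℚ} {x y : ℚ} {i j : ℕ} (hx : (lx ++ [x]) <+: L)
    (hy : (ly ++ [y]) <+: L) (h1 : Lab (· < ·) lx x i) (h2 : Lab (· > ·) ly y j) (hxy : x < y) :
    H L (i + 1) j ∨ H L i (j + 1) := by
  rcases pos_cases hx hy with ⟨-, rfl⟩ | h | h
  · exact absurd hxy (lt_irrefl _)
  · exact Or.inl ⟨ly, y, hy, h1.step lt_tr h hxy, h2⟩
  · exact Or.inr ⟨lx, x, hx, h1, h2.step gt_tr h hxy⟩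

theorem H_mono {L : List ℚ} {i j i' j' : ℕ} (h : H L i j) (hi : i' ≤ i) (hj : j' ≤ j) :
    H L i' j' := by
  obtain ⟨l, x, hp, h1, h2⟩ := h
  exact ⟨l, x, hp, Lab.mono h1 hi, Lab.mono h2 hj⟩

theorem r1a : StmtR1a := by
  intro L t _ ht
  obtain ⟨i, hi⟩ := Lab.max (r := (· < ·)) L t
  obtain ⟨j, hj⟩ := Lab.max (r := (· > ·)) L t
  refine ⟨i, j, ⟨?_, ?_, ?_, ?_⟩, fun i' j' => ?_⟩
  · rintro ⟨l, x, hp, h1, h2⟩
    have hxt : x ≠ t := fun h => ht (h ▸ mem_of_prefix hp)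
    rcases lt_or_gt_of_ne hxt with h | h
    · have := (hi (i + 1)).1 (Lab.step lt_tr h1 hp h)
      omega
    · have := (hj (j + 1)).1 (Lab.step gt_tr h2 hp h)
      omega
  · intro h
    obtain ⟨i, rfl⟩ : ∃ k, i = k + 1 := ⟨i - 1, by omega⟩
    obtain ⟨x, lx, hp, h1, -⟩ := ((hi (i + 1)).2 le_rfl).pred
    exact ⟨lx, x, hp, h1, Lab.zero _ _⟩
  · intro h
    obtain ⟨j, rfl⟩ : ∃ k, j = k + 1 := ⟨j - 1, by omega⟩
    obtain ⟨x, lx, hp, h1, -⟩ := ((hj (j + 1)).2 le_rfl).pred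
    exact ⟨lx, x, hp, Lab.zero _ _, h1⟩
  · intro h h'
    obtain ⟨i, rfl⟩ : ∃ k, i = k + 1 := ⟨i - 1, by omega⟩
    obtain ⟨j, rfl⟩ : ∃ k, j = k + 1 := ⟨j - 1, by omega⟩
    obtain ⟨x, lx, hp, h1, hx⟩ := ((hi (i + 1)).2 le_rfl).pred
    obtain ⟨y, ly, hq, h2, hy⟩ := ((hj (j + 1)).2 le_rfl).pred
    exact cross hp hq h1 h2 (lt_trans hx hy)
  · rw [H_snoc, hi, hj]

/-- A rational between two finite sets, outside a third one. -/
theorem between (lo hi F : Finset ℚ) (h : ∀ x ∈ lo, ∀ y ∈ hi, x < y) :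
    ∃ t, t ∉ F ∧ (∀ x ∈ lo, x < t) ∧ ∀ y ∈ hi, t < y := by
  classical
  obtain ⟨m, h1, h2⟩ := Order.exists_between_finsets lo hi h
  obtain ⟨t, h3, h4⟩ := Order.exists_between_finsets (lo ∪ F.filter (· ≤ m))
    (hi ∪ F.filter (m < ·)) (by
      intro x hx y hy
      rw [Finset.mem_union, Finset.mem_filter] at hx hy
      rcases hx with hx | hx <;> rcases hy with hy | hy
      · exact h x hx y hy
      · exact (h1 x hx).trans hy.2
      · exact lt_of_le_of_lt hx.2 (h2 y hy)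
      · exact lt_of_le_of_lt hx.2 hy.2)
  refine ⟨t, fun ht => ?_, fun x hx => h3 x (Finset.mem_union_left _ hx),
    fun y hy => h4 y (Finset.mem_union_left _ hy)⟩
  rcases le_or_gt t m with h | h
  · exact lt_irrefl t (h3 t (Finset.mem_union_right _ (Finset.mem_filter.2 ⟨ht, h⟩)))
  · exact lt_irrefl t (h4 t (Finset.mem_union_right _ (Finset.mem_filter.2 ⟨ht, h⟩)))

/-- The elements with an increasing label `≥ m`. -/
def IsA (r : ℚ → ℚ → Prop) (L : List ℚ) (m : ℕ) (x : ℚ) : Prop :=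
  ∃ lx, (lx ++ [x]) <+: L ∧ Lab r lx x m

theorem lab_succ_iff {r : ℚ → ℚ → Prop} (htr : ∀ a b c, r a b → r b c → r a c) (L : List ℚ) (t : ℚ)
    (m : ℕ) : Lab r L t (m + 1) ↔ ∃ x, IsA r L m x ∧ r x t := by
  constructor
  · intro h
    obtain ⟨x, lx, hp, h1, h2⟩ := h.pred
    exact ⟨x, ⟨lx, hp, h1⟩, h2⟩
  · rintro ⟨x, ⟨lx, hp, h1⟩, h2⟩
    exact h1.step htr hp h2

theorem IsA.pred {r : ℚ → ℚ → Prop} {L : List ℚ} {m : ℕ} {x : ℚ} (h : IsA r L (m + 1) x) :
    ∃ x', IsA r L m x' ∧ r x' x := by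
  obtain ⟨lx, hp, h1⟩ := h
  obtain ⟨y, ly, hq, h2, h3⟩ := h1.pred
  exact ⟨y, ⟨ly, hq.trans ((List.prefix_append _ _).trans hp), h2⟩, h3⟩

theorem r1b : StmtR1b := by
  classical
  intro L i j hL ⟨h0, hA, hB, hC⟩
  -- the finite sets
  set A : ℕ → Finset ℚ := fun m => L.toFinset.filter (IsA (· < ·) L m) with hAdef
  set B : ℕ → Finset ℚ := fun m => L.toFinset.filter (IsA (· > ·) L m) with hBdef
  have memA : ∀ m x, x ∈ A m ↔ IsA (· < ·) L m x := by
    intro m x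
    rw [hAdef]
    simp only [Finset.mem_filter, List.mem_toFinset, and_iff_right_iff_imp]
    rintro ⟨lx, hp, -⟩
    exact mem_of_prefix hp
  have memB : ∀ m x, x ∈ B m ↔ IsA (· > ·) L m x := by
    intro m x
    rw [hBdef]
    simp only [Finset.mem_filter, List.mem_toFinset, and_iff_right_iff_imp]
    rintro ⟨lx, hp, -⟩
    exact mem_of_prefix hp
  -- (1)
  have c1 : ∀ y ∈ B j, ∀ x ∈ A i, y < x := by
    intro y hy x hx
    rw [memB] at hy
    rw [memA] at hx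
    obtain ⟨ly, hq, h2⟩ := hy
    obtain ⟨lx, hp, h1⟩ := hx
    by_contra hcon
    rw [not_lt] at hcon
    rcases hcon.lt_or_eq with h | h
    · rcases cross hp hq h1 h2 h with h | h
      · exact h0 (H_mono h (by omega) le_rfl)
      · exact h0 (H_mono h le_rfl (by omega))
    · subst h
      rcases pos_cases hp hq with ⟨rfl, -⟩ | h | h
      · exact h0 ⟨lx, x, hp, h1, h2⟩
      · have : x ∈ ly := mem_of_prefix h
        have hn : (ly ++ [x]).Nodup := hL.sublist hq.sublist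
        rw [List.nodup_append] at hn
        exact absurd rfl (hn.2.2 x this x (by simp))
      · have : x ∈ lx := mem_of_prefix h
        have hn : (lx ++ [x]).Nodup := hL.sublist hp.sublist
        rw [List.nodup_append] at hn
        exact absurd rfl (hn.2.2 x this x (by simp))
  -- the extra bounds
  obtain ⟨lo, hlo1, hlo2⟩ : ∃ lo : Finset ℚ, (∀ m, i = m + 1 → ∃ a ∈ lo, a ∈ A m) ∧
      (∀ a ∈ lo, ∃ m, i = m + 1 ∧ ∀ x ∈ A m, a ≤ x) := by
    rcases Nat.eq_zero_or_pos i with rfl | hi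
    · exact ⟨∅, by intro m hm; omega, by simp⟩
    · obtain ⟨m, rfl⟩ : ∃ m, i = m + 1 := ⟨i - 1, by omega⟩
      obtain ⟨l, x, hp, h1, -⟩ := hA (by omega)
      have hne : (A m).Nonempty := ⟨x, (memA m x).2 ⟨l, hp, h1⟩⟩
      refine ⟨{(A m).min' hne}, ?_, ?_⟩
      · intro m' hm'
        obtain rfl : m = m' := by omega
        exact ⟨_, Finset.mem_singleton_self _, Finset.min'_mem _ _⟩
      · intro a ha
        rw [Finset.mem_singleton] at ha
        subst ha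
        exact ⟨m, rfl, fun x hx => Finset.min'_le _ _ hx⟩
  obtain ⟨up, hup1, hup2⟩ : ∃ up : Finset ℚ, (∀ m, j = m + 1 → ∃ a ∈ up, a ∈ B m) ∧
      (∀ a ∈ up, ∃ m, j = m + 1 ∧ ∀ x ∈ B m, x ≤ a) := by
    rcases Nat.eq_zero_or_pos j with rfl | hj
    · exact ⟨∅, by intro m hm; omega, by simp⟩
    · obtain ⟨m, rfl⟩ : ∃ m, j = m + 1 := ⟨j - 1, by omega⟩
      obtain ⟨l, x, hp, -, h1⟩ := hB (by omega)
      have hne : (B m).Nonempty := ⟨x, (memB m x).2 ⟨l, hp, h1⟩⟩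
      refine ⟨{(B m).max' hne}, ?_, ?_⟩
      · intro m' hm'
        obtain rfl : m = m' := by omega
        exact ⟨_, Finset.mem_singleton_self _, Finset.max'_mem _ _⟩
      · intro a ha
        rw [Finset.mem_singleton] at ha
        subst ha
        exact ⟨m, rfl, fun x hx => Finset.le_max' _ _ hx⟩
  obtain ⟨t, htF, ht1, ht2⟩ := between (B j ∪ lo) (A i ∪ up) L.toFinset (by
    intro x hx y hy
    rw [Finset.mem_union] at hx hy
    rcases hx with hx | hx <;> rcases hy with hy | hy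
    · exact c1 x hx y hy
    · obtain ⟨m, rfl, hm⟩ := hup2 y hy
      obtain ⟨x', hx', hlt⟩ := ((memB _ _).1 hx).pred
      exact lt_of_lt_of_le hlt (hm x' ((memB _ _).2 hx'))
    · obtain ⟨m, rfl, hm⟩ := hlo2 x hx
      obtain ⟨y', hy', hlt⟩ := ((memA _ _).1 hy).pred
      exact lt_of_le_of_lt (hm y' ((memA _ _).2 hy')) hlt
    · obtain ⟨m, rfl, hm⟩ := hlo2 x hx
      obtain ⟨k, rfl, hk⟩ := hup2 y hy
      rcases hC (by omega) (by omega) with ⟨l, z, hp, h1, h2⟩ | ⟨l, z, hp, h1, h2⟩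
      · have h1' : IsA (· < ·) L (m + 1) z := ⟨l, hp, h1⟩
        obtain ⟨z', hz', hlt⟩ := h1'.pred
        have a1 := hm z' ((memA _ _).2 hz')
        have a2 := hk z ((memB _ _).2 ⟨l, hp, h2⟩)
        exact lt_of_le_of_lt a1 (lt_of_lt_of_le hlt a2)
      · have h1' : IsA (· > ·) L (k + 1) z := ⟨l, hp, h2⟩
        obtain ⟨z', hz', hlt⟩ := h1'.pred
        have a1 := hm z ((memA _ _).2 ⟨l, hp, h1⟩)
        have a2 := hk z' ((memB _ _).2 hz')
        exact lt_of_le_of_lt a1 (lt_of_lt_of_le hlt a2))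
  refine ⟨t, by simpa using htF, fun i' j' => ?_⟩
  have hi : ∀ i', Lab (· < ·) L t i' ↔ i' ≤ i := by
    intro i'
    constructor
    · intro h
      by_contra hcon
      obtain ⟨x, hx, hlt⟩ := (lab_succ_iff lt_tr L t i).1 (h.mono (by omega))
      have := ht2 x (Finset.mem_union_left _ ((memA _ _).2 hx))
      exact lt_irrefl _ (hlt.trans this)
    · intro h
      refine Lab.mono (m := i) ?_ h
      rcases Nat.eq_zero_or_pos i with rfl | hi
      · exact Lab.zero _ _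
      · obtain ⟨m, rfl⟩ : ∃ m, i = m + 1 := ⟨i - 1, by omega⟩
        obtain ⟨a, ha, haA⟩ := hlo1 m rfl
        exact (lab_succ_iff lt_tr L t m).2
          ⟨a, (memA _ _).1 haA, ht1 a (Finset.mem_union_right _ ha)⟩
  have hj : ∀ j', Lab (· > ·) L t j' ↔ j' ≤ j := by
    intro j'
    constructor
    · intro h
      by_contra hcon
      obtain ⟨x, hx, hlt⟩ := (lab_succ_iff gt_tr L t j).1 (h.mono (by omega))
      have := ht1 x (Finset.mem_union_left _ ((memB _ _).2 hx))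
      exact lt_irrefl _ (this.trans hlt)
    · intro h
      refine Lab.mono (m := j) ?_ h
      rcases Nat.eq_zero_or_pos j with rfl | hj
      · exact Lab.zero _ _
      · obtain ⟨m, rfl⟩ : ∃ m, j = m + 1 := ⟨j - 1, by omega⟩
        obtain ⟨a, ha, haA⟩ := hup1 m rfl
        exact (lab_succ_iff gt_tr L t m).2
          ⟨a, (memB _ _).1 haA, ht2 a (Finset.mem_union_right _ ha)⟩
  rw [H_snoc, hi, hj]

theorem chain_iff {r : ℚ → ℚ → Prop} (L : List ℚ) (a : ℕ) (ha : 1 ≤ a) :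
    (∃ s : List ℚ, s.Sublist L ∧ s.length = a ∧ s.Pairwise r) ↔
      ∃ l x, (l ++ [x]) <+: L ∧ Lab r l x (a - 1) := by
  constructor
  · rintro ⟨s, hs, hl, hp⟩
    rcases List.eq_nil_or_concat' s with rfl | ⟨s', x, rfl⟩
    · simp at hl; omega
    · obtain ⟨l, h1, h2⟩ := sub_snoc hs
      refine ⟨l, x, h1, s', h2, ?_, hp⟩
      simp at hl; omega
  · rintro ⟨l, x, hp, s, hs, hl, hpw⟩
    exact ⟨s ++ [x], (hs.append_right _).trans hp.sublist, by simp [hl]; omega, hpw⟩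

theorem r1c : StmtR1c := by
  intro L a d ha hd
  unfold Over
  rw [chain_iff L a ha, chain_iff L d hd]
  constructor
  · rintro (⟨l, x, hp, h⟩ | ⟨l, x, hp, h⟩)
    · exact Or.inl ⟨l, x, hp, h, Lab.zero _ _⟩
    · exact Or.inr ⟨l, x, hp, Lab.zero _ _, h⟩
  · rintro (⟨l, x, hp, h, -⟩ | ⟨l, x, hp, -, h⟩)
    · exact Or.inl ⟨l, x, hp, h⟩
    · exact Or.inr ⟨l, x, hp, h⟩

end R961.MG
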